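import Pool.Agent.Q163.WM.Sm
import Pool.Agent.Q163.GC.Real
import Pool.Agent.Q163.GC.Sqf
import Pool.Agent.Erdos456.Mertens

/-! The integral of the mean square. -/

set_option autoImplicit false

namespace Pool.Agent.Q163.WM

open Finset MeasureTheory Filter Topology Pool.Agent.Q163.RP Pool.Agent.Q163.RX Pool.Agent.Q163.GC
open scoped ENNReal

/-- the summatory function of `f` -/
noncomputable def Sf (f : ℕ → ℝ) (u : ℝ) : ℝ := ∑ n ∈ Icc 1 ⌊u⌋₊, f n

/-- `∫_1^x (F(u)/u)² du` -/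
noncomputable def Iq (f : ℕ → ℝ) (x : ℝ) : ℝ := ∫ u in (1:ℝ)..x, (Sf f u / u) ^ 2

lemma cell (f : ℕ → ℝ) (N : ℕ) (hN : 1 ≤ N) :
    IntervalIntegrable (fun u => (Sf f u / u) ^ 2) volume (N : ℝ) ((N + 1 : ℕ) : ℝ) ∧
    ∫ u in (N : ℝ)..((N + 1 : ℕ) : ℝ), (Sf f u / u) ^ 2 =
      (∑ n ∈ Icc 1 N, f n) ^ 2 / ((N : ℝ) * (N + 1)) := by
  set c := ∑ n ∈ Icc 1 N, f n with hc
  have hNR : (0 : ℝ) < N := by exact_mod_cast hN
  have hle : (N : ℝ) ≤ ((N + 1 : ℕ) : ℝ) := by push_cast; linarith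
  have hae : (fun u : ℝ => (c / u) ^ 2) =ᵐ[volume.restrict (Set.uIoc (N : ℝ) ((N + 1 : ℕ) : ℝ))]
      (fun u => (Sf f u / u) ^ 2) := by
    rw [Set.uIoc_of_le hle, ← Measure.restrict_congr_set Ioo_ae_eq_Ioc]
    refine (ae_restrict_mem measurableSet_Ioo).mono fun x hx => ?_
    have h1 : ⌊x⌋₊ = N := by
      rw [Nat.floor_eq_iff (by linarith [hx.1])]
      refine ⟨hx.1.le, ?_⟩
      have := hx.2
      push_cast at this
      exact this
    simp only [Sf, h1, hc]
  have hcont : ContinuousOn (fun u : ℝ => (c / u) ^ 2) (Set.uIcc (N : ℝ) ((N + 1 : ℕ) : ℝ)) := by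
    refine ContinuousOn.pow (continuousOn_const.div continuousOn_id fun x hx => ?_) 2
    rw [Set.uIcc_of_le hle] at hx
    exact (lt_of_lt_of_le hNR hx.1).ne'
  constructor
  · exact hcont.intervalIntegrable.congr_ae hae
  · rw [← intervalIntegral.integral_congr_ae_restrict hae]
    have h2 : ∀ x ∈ Set.uIcc (N : ℝ) ((N + 1 : ℕ) : ℝ), HasDerivAt (fun u : ℝ => -(c ^ 2) * u⁻¹)
        ((c / x) ^ 2) x := by
      intro x hx
      rw [Set.uIcc_of_le hle] at hx
      have hx0 : x ≠ 0 := (lt_of_lt_of_le hNR hx.1).ne'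
      have := (hasDerivAt_inv hx0).const_mul (-(c ^ 2))
      have e : -(c ^ 2) * -(x ^ 2)⁻¹ = (c / x) ^ 2 := by
        rw [div_pow, neg_mul_neg, div_eq_mul_inv]
      rwa [e] at this
    rw [intervalIntegral.integral_eq_sub_of_hasDerivAt h2 hcont.intervalIntegrable]
    push_cast
    field_simp
    ring

lemma I_nat (f : ℕ → ℝ) (X : ℕ) :
    IntervalIntegrable (fun u => (Sf f u / u) ^ 2) volume 1 ((X + 1 : ℕ) : ℝ) ∧
    Iq f ((X + 1 : ℕ) : ℝ) = ∑ N ∈ Icc 1 X, (∑ n ∈ Icc 1 N, f n) ^ 2 / ((N : ℝ) * (N + 1)) := by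
  induction X with
  | zero =>
    unfold Iq
    simp
  | succ X ih =>
    have h1 := cell f (X + 1) (by omega)
    refine ⟨ih.1.trans h1.1, ?_⟩
    have h2 : Iq f ((X + 1 + 1 : ℕ) : ℝ) = Iq f ((X + 1 : ℕ) : ℝ) +
        ∫ u in ((X + 1 : ℕ) : ℝ)..((X + 1 + 1 : ℕ) : ℝ), (Sf f u / u) ^ 2 := by
      unfold Iq
      exact (intervalIntegral.integral_add_adjacent_intervals ih.1 h1.1).symm
    rw [h2, ih.2, h1.2, Icc_ins X, sum_insert (f := fun N => (∑ n ∈ Icc 1 N, f n) ^ 2 /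
      ((N : ℝ) * (N + 1))) (by simp), add_comm, Icc_ins X]

lemma Iq_mono (f : ℕ → ℝ) {x : ℝ} {X : ℕ} (hx : 1 ≤ x) (h : x ≤ ((X + 1 : ℕ) : ℝ)) :
    Iq f x ≤ Iq f ((X + 1 : ℕ) : ℝ) := by
  unfold Iq
  refine intervalIntegral.integral_mono_interval le_rfl hx h
    (Eventually.of_forall fun u => sq_nonneg _) (I_nat f X).1

/-- the integral is at most the mean square of the smooth sums -/
theorem Iq_le (P : Set ℕ) (s : ℕ → ℝ) (ω : ℕ → Bool) (K : ℝ) (hK : 0 ≤ K)
    (h : ∀ n, WW P s n ω ≤ ENNReal.ofReal K) (x : ℝ) (hx : 1 ≤ x) :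
    Iq (fun n => mo n * mult (vl P s ω) n) x ≤ K * EE P ⌊x⌋₊ := by
  set X := ⌊x⌋₊ with hX
  have h1 := Iq_mono (fun n => mo n * mult (vl P s ω) n) hx (X := X)
    (by rw [hX]; push_cast; exact (Nat.lt_floor_add_one x).le)
  refine h1.trans ?_
  rw [(I_nat _ X).2]
  have h2 : ∑ N ∈ Icc 1 X, (∑ n ∈ Icc 1 N, mo n * mult (vl P s ω) n) ^ 2 / ((N : ℝ) * (N + 1)) =
      ∑ N ∈ Icc 1 X, My (vl P s ω) X N ^ 2 / ((N : ℝ) * (N + 1)) := by
    refine sum_congr rfl fun N hN => ?_
    rw [My_large _ (mem_Icc.1 hN).2]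
  rw [h2]
  have hE := EE_pos P X
  have h3 : T (My (vl P s ω) X) ≤ ENNReal.ofReal (K * EE P X) := by
    have h4 := h X
    unfold WW at h4
    have h5 : T (My (vl P s ω) X) = ENNReal.ofReal (EE P X) * (ENNReal.ofReal (1 / EE P X) *
        T (My (vl P s ω) X)) := by
      rw [← mul_assoc, ← ENNReal.ofReal_mul hE.le, mul_one_div_cancel hE.ne', ENNReal.ofReal_one,
        one_mul]
    rw [h5, mul_comm K, ENNReal.ofReal_mul hE.le]
    exact mul_le_mul_right h4 _
  have h4 : T (My (vl P s ω) X) ≠ ⊤ := (h3.trans_lt ENNReal.ofReal_lt_top).ne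
  rcases T_sum_le (My (vl P s ω) X) X with h5 | h5
  · refine h5.trans ?_
    exact ENNReal.toReal_le_of_le_ofReal (by positivity) h3
  · exact absurd h5 h4

open Classical in
/-- Mertens for the product of the `1 + 1/p` -/
theorem EE_le (P : Set ℕ) (A : ℝ) (hA : ∀ y : ℕ, ∑ p ∈ (Icc 1 y).filter (fun p => p.Prime ∧ p ∉ P),
    1 / Real.sqrt p ≤ A) : ∃ C : ℝ, 0 < C ∧ ∀ y : ℕ, 2 ≤ y → EE P y ≤ C * Real.log y := by
  obtain ⟨C, hC⟩ := Pool.Agent.Erdos456.Mert.mertens_inv
  have hC0 : 0 ≤ C := (abs_nonneg _).trans (hC 3 le_rfl)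
  have hl2 : 0 < Real.log 2 := Real.log_pos (by norm_num)
  have hA0 : 0 ≤ A := le_trans (sum_nonneg fun _ _ => by positivity) (hA 0)
  have h1 : ∀ y : ℕ, EE P y ≤ Real.exp (∑ p ∈ (Icc 1 y).filter Nat.Prime, 1 / (p : ℝ)) *
      Real.exp (2 * A) := by
    intro y
    have e1 : EE P y ≤ ∏ p ∈ (Icc 1 y).filter Nat.Prime,
        Real.exp (1 / (p : ℝ) + if p ∉ P then 2 * (1 / Real.sqrt p) else 0) := by
      unfold EE
      refine prod_le_prod (fun p _ => (fac_pos P p).le) fun p hp => ?_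
      unfold fac
      by_cases hpP : p ∈ P
      · rw [if_pos hpP, if_neg (not_not.2 hpP), add_zero]
        have := Real.add_one_le_exp (1 / (p : ℝ))
        linarith
      · rw [if_neg hpP, if_pos hpP]
        have h2 := Real.add_one_le_exp (1 / Real.sqrt p)
        calc (1 + 1 / Real.sqrt p) ^ 2 ≤ Real.exp (1 / Real.sqrt p) ^ 2 :=
              pow_le_pow_left₀ (by positivity) (by linarith) 2
          _ = Real.exp (2 * (1 / Real.sqrt p)) := by rw [← Real.exp_nat_mul]; norm_num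
          _ ≤ _ := Real.exp_le_exp.2 (by
              have : (0 : ℝ) ≤ 1 / (p : ℝ) := by positivity
              linarith)
    refine e1.trans ?_
    rw [← Real.exp_sum, ← Real.exp_add]
    apply Real.exp_le_exp.2
    rw [sum_add_distrib, ← sum_filter, filter_filter, ← mul_sum]
    have := hA y
    linarith
  refine ⟨Real.exp (2 * A) * (Real.exp C + 3 / Real.log 2), by positivity, fun y hy => ?_⟩
  have hyR : (2 : ℝ) ≤ y := by exact_mod_cast hy
  have hly : Real.log 2 ≤ Real.log y := Real.log_le_log (by norm_num) hyR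
  rcases Nat.lt_or_ge y 3 with h3 | h3
  · have hy2 : y = 2 := by omega
    subst hy2
    refine (h1 2).trans ?_
    have e1 : ∑ p ∈ (Icc 1 2).filter Nat.Prime, 1 / (p : ℝ) = 1 / 2 := by
      have : (Icc 1 2).filter Nat.Prime = {2} := by decide
      rw [this]
      simp
    rw [e1]
    have e2 : Real.exp (1 / 2) ≤ 3 := by
      have := Real.exp_one_lt_d9
      have h := Real.exp_le_exp.2 (by norm_num : (1 / 2 : ℝ) ≤ 1)
      linarith
    have e3 : (3 : ℝ) = 3 / Real.log 2 * Real.log 2 := by field_simp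
    push_cast
    calc Real.exp (1 / 2) * Real.exp (2 * A) ≤ 3 * Real.exp (2 * A) :=
          mul_le_mul_of_nonneg_right e2 (Real.exp_pos _).le
      _ = Real.exp (2 * A) * (3 / Real.log 2) * Real.log 2 := by field_simp
      _ ≤ Real.exp (2 * A) * (Real.exp C + 3 / Real.log 2) * Real.log 2 := by
          have := Real.exp_pos C
          gcongr
          linarith
  · have h2 := (abs_le.1 (hC y h3)).2
    have hlog : 0 < Real.log y := by linarith
    have h4 : Real.exp (∑ p ∈ (Icc 1 y).filter Nat.Prime, 1 / (p : ℝ)) ≤ Real.exp C * Real.log y := by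
      calc Real.exp (∑ p ∈ (Icc 1 y).filter Nat.Prime, 1 / (p : ℝ))
          ≤ Real.exp (C + Real.log (Real.log y)) := Real.exp_le_exp.2 (by linarith)
        _ = Real.exp C * Real.log y := by rw [Real.exp_add, Real.exp_log hlog]
    refine (h1 y).trans ?_
    calc Real.exp (∑ p ∈ (Icc 1 y).filter Nat.Prime, 1 / (p : ℝ)) * Real.exp (2 * A)
        ≤ (Real.exp C * Real.log y) * Real.exp (2 * A) :=
          mul_le_mul_of_nonneg_right h4 (Real.exp_pos _).le
      _ = Real.exp (2 * A) * Real.exp C * Real.log y := by ring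
      _ ≤ Real.exp (2 * A) * (Real.exp C + 3 / Real.log 2) * Real.log y := by
          have : 0 < 3 / Real.log 2 := by positivity
          gcongr
          linarith

/-- the second moment of the sums -/
theorem second_moment (N : ℕ) : ∫ ω, (∑ n ∈ Icc 1 N, mo n * ch ω n) ^ 2 ∂cm = QQ N := by
  have e1 : ∀ ω, (∑ n ∈ Icc 1 N, mo n * ch ω n) ^ 2 =
      ∑ x ∈ Icc 1 N ×ˢ Icc 1 N, mo x.1 * mo x.2 * ch ω (x.1 * x.2) := by
    intro ω
    rw [sq, Finset.sum_mul_sum, ← Finset.sum_product']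
    refine Finset.sum_congr rfl fun x hx => ?_
    rw [Finset.mem_product, mem_Icc, mem_Icc] at hx
    rw [ch_mul ω (by omega) (by omega)]
    ring
  simp_rw [e1]
  rw [integral_finsetSum _ fun x _ => (int_ch _).const_mul _]
  simp_rw [integral_const_mul]
  rw [sum_product]
  have h1 : ∀ a ∈ Icc 1 N, ∑ b ∈ Icc 1 N, mo a * mo b * ∫ ω, ch ω (a * b) ∂cm = mo a ^ 2 := by
    intro a ha
    rw [mem_Icc] at ha
    rw [sum_eq_single a]
    · have h2 : ∀ ω, ch ω (a * a) = 1 := by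
        intro ω
        rw [ch_mul ω (by omega) (by omega), ← sq, ch_sq]
      simp only [h2, integral_const, probReal_univ, one_smul, mul_one]
      ring
    · intro b hb hne
      rw [mem_Icc] at hb
      by_cases h2 : mo a = 0
      · rw [h2, zero_mul, zero_mul]
      by_cases h3 : mo b = 0
      · rw [h3, mul_zero, zero_mul]
      rw [mean_ch (mul_ne_zero (by omega) (by omega)), mul_zero]
      intro hsq
      exact hne (sqf_eq_of_sq (mu_ne a h2) (mu_ne b h3) hsq).symm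
    · intro h
      exact absurd (mem_Icc.2 ha) h
  rw [sum_congr rfl h1]
  unfold QQ
  refine sum_nbij' (fun n => n - 1) (fun n => n + 1) ?_ ?_ ?_ ?_ ?_
  · intro n hn
    rw [mem_Icc] at hn
    rw [mem_range]
    omega
  · intro n hn
    rw [mem_range] at hn
    rw [mem_Icc]
    omega
  · intro n hn
    rw [mem_Icc] at hn
    show n - 1 + 1 = n
    omega
  · intro n _
    rfl
  · intro n hn
    rw [mem_Icc] at hn
    have : n - 1 + 1 = n := by omega
    rw [this]
    rfl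

end Pool.Agent.Q163.WM
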