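import Pool.Agent.Q163.RX.Mgf

/-! A maximal inequality for nonnegative processes of coin tosses. -/

set_option autoImplicit false

namespace Pool.Agent.Q163.WM

open Finset MeasureTheory ProbabilityTheory Pool.Agent.Q163.RP Pool.Agent.Q163.RX
open scoped ENNReal

open Classical in
/-- the process stopped at the first passage above `K` -/
noncomputable def stp (W : ℕ → (ℕ → Bool) → ℝ≥0∞) (K : ℝ≥0∞) : ℕ → (ℕ → Bool) → ℝ≥0∞
  | 0 => W 0
  | n + 1 => fun ω => if ∃ m ≤ n, K ≤ W m ω then stp W K n ω else W (n + 1) ω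

variable {W : ℕ → (ℕ → Bool) → ℝ≥0∞} {K : ℝ≥0∞}

lemma stp_pos (n : ℕ) (ω : ℕ → Bool) (h : ∃ m ≤ n, K ≤ W m ω) : stp W K (n + 1) ω = stp W K n ω :=
  if_pos h

lemma stp_neg (n : ℕ) (ω : ℕ → Bool) (h : ¬ ∃ m ≤ n, K ≤ W m ω) : stp W K (n + 1) ω = W (n + 1) ω :=
  if_neg h

lemma meas_hit (hm : ∀ n, Measurable (W n)) (n : ℕ) : MeasurableSet {ω | ∃ m ≤ n, K ≤ W m ω} := by
  have h1 : {ω | ∃ m ≤ n, K ≤ W m ω} = ⋃ m, ⋃ (_ : m ≤ n), {ω | K ≤ W m ω} := by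
    ext ω
    simp
  rw [h1]
  exact MeasurableSet.iUnion fun m => MeasurableSet.iUnion fun _ =>
    measurableSet_le measurable_const (hm m)

lemma meas_stp (hm : ∀ n, Measurable (W n)) (n : ℕ) : Measurable (stp W K n) := by
  induction n with
  | zero => exact hm 0
  | succ n ih => exact Measurable.ite (meas_hit hm n) ih (hm (n + 1))

lemma stp_fl (hfl : ∀ n m, m ≤ n → ∀ ω, W m (fl (n + 1) ω) = W m ω) (n : ℕ) :
    ∀ k, n ≤ k → ∀ ω, stp W K n (fl (k + 1) ω) = stp W K n ω := by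
  induction n with
  | zero => exact fun k _ ω => hfl k 0 (Nat.zero_le _) ω
  | succ n ih =>
    intro k hk ω
    have h1 : (∃ m ≤ n, K ≤ W m (fl (k + 1) ω)) ↔ ∃ m ≤ n, K ≤ W m ω := by
      constructor
      · rintro ⟨m, hm, h⟩
        exact ⟨m, hm, by rwa [hfl k m (by omega) ω] at h⟩
      · rintro ⟨m, hm, h⟩
        exact ⟨m, hm, by rwa [hfl k m (by omega) ω]⟩
    unfold stp
    by_cases h : ∃ m ≤ n, K ≤ W m ω
    · rw [if_pos h, if_pos (h1.2 h)]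
      exact ih k (by omega) ω
    · rw [if_neg h, if_neg fun h' => h (h1.1 h')]
      exact hfl k (n + 1) hk ω

lemma stp_eq (n : ℕ) (ω : ℕ → Bool) (h : ¬ ∃ m ≤ n, K ≤ W m ω) : stp W K n ω = W n ω := by
  cases n with
  | zero => rfl
  | succ n =>
    unfold stp
    rw [if_neg]
    rintro ⟨m, hm, h'⟩
    exact h ⟨m, by omega, h'⟩

lemma le_stp (n : ℕ) (ω : ℕ → Bool) (h : ∃ m ≤ n, K ≤ W m ω) : K ≤ stp W K n ω := by
  induction n with
  | zero =>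
    obtain ⟨m, hm, h⟩ := h
    obtain rfl : m = 0 := by omega
    exact h
  | succ n ih =>
    unfold stp
    by_cases h' : ∃ m ≤ n, K ≤ W m ω
    · rw [if_pos h']
      exact ih h'
    · rw [if_neg h']
      obtain ⟨m, hm, hK⟩ := h
      have : m = n + 1 := by
        by_contra hne
        exact h' ⟨m, by omega, hK⟩
      rwa [this] at hK

/-- **The maximal inequality.** -/
theorem maxineq (hm : ∀ n, Measurable (W n))
    (hfl : ∀ n m, m ≤ n → ∀ ω, W m (fl (n + 1) ω) = W m ω)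
    (hsup : ∀ n ω, W (n + 1) ω + W (n + 1) (fl (n + 1) ω) ≤ 2 * W n ω) :
    K * cm {ω | ∃ n, K ≤ W n ω} ≤ ∫⁻ ω, W 0 ω ∂cm := by
  have h1 : ∀ n ω, stp W K (n + 1) ω + stp W K (n + 1) (fl (n + 1) ω) ≤ 2 * stp W K n ω := by
    intro n ω
    by_cases h : ∃ m ≤ n, K ≤ W m ω
    · have h' : ∃ m ≤ n, K ≤ W m (fl (n + 1) ω) := by
        obtain ⟨m, hm, h⟩ := h
        exact ⟨m, hm, by rwa [hfl n m hm ω]⟩
      have e1 : stp W K (n + 1) ω = stp W K n ω := by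
        exact stp_pos n ω h
      have e2 : stp W K (n + 1) (fl (n + 1) ω) = stp W K n ω := by
        rw [stp_pos n _ h', stp_fl hfl n n le_rfl]
      rw [e1, e2, two_mul]
    · have h' : ¬ ∃ m ≤ n, K ≤ W m (fl (n + 1) ω) := by
        rintro ⟨m, hm, h2⟩
        exact h ⟨m, hm, by rwa [hfl n m hm ω] at h2⟩
      have e1 : stp W K (n + 1) ω = W (n + 1) ω := by
        exact stp_neg n ω h
      have e2 : stp W K (n + 1) (fl (n + 1) ω) = W (n + 1) (fl (n + 1) ω) := by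
        exact stp_neg n _ h'
      rw [e1, e2, stp_eq n ω h]
      exact hsup n ω
  have h2 : ∀ n, ∫⁻ ω, stp W K (n + 1) ω ∂cm ≤ ∫⁻ ω, stp W K n ω ∂cm := by
    intro n
    have h3 : ∫⁻ ω, stp W K (n + 1) (fl (n + 1) ω) ∂cm = ∫⁻ ω, stp W K (n + 1) ω ∂cm :=
      (mp_fl (n + 1)).lintegral_comp (meas_stp hm _)
    have h4 : 2 * ∫⁻ ω, stp W K (n + 1) ω ∂cm ≤ 2 * ∫⁻ ω, stp W K n ω ∂cm := by
      calc 2 * ∫⁻ ω, stp W K (n + 1) ω ∂cm
          = ∫⁻ ω, stp W K (n + 1) ω + stp W K (n + 1) (fl (n + 1) ω) ∂cm := by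
            rw [lintegral_add_left (meas_stp hm _), h3, two_mul]
        _ ≤ ∫⁻ ω, 2 * stp W K n ω ∂cm := lintegral_mono fun ω => h1 n ω
        _ = 2 * ∫⁻ ω, stp W K n ω ∂cm := lintegral_const_mul _ (meas_stp hm _)
    exact (ENNReal.mul_le_mul_iff_right (by norm_num) (by norm_num)).1 h4
  have h3 : ∀ n, ∫⁻ ω, stp W K n ω ∂cm ≤ ∫⁻ ω, W 0 ω ∂cm := by
    intro n
    induction n with
    | zero => exact le_rfl
    | succ n ih => exact (h2 n).trans ih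
  have h4 : ∀ n, K * cm {ω | ∃ m ≤ n, K ≤ W m ω} ≤ ∫⁻ ω, W 0 ω ∂cm := by
    intro n
    refine le_trans ?_ (h3 n)
    rw [← setLIntegral_const]
    refine (lintegral_indicator (meas_hit hm n) _).symm.le.trans (lintegral_mono fun ω => ?_)
    by_cases h : ω ∈ {ω | ∃ m ≤ n, K ≤ W m ω}
    · rw [Set.indicator_of_mem h]
      exact le_stp n ω h
    · rw [Set.indicator_of_notMem h]
      exact bot_le
  have h5 : {ω | ∃ n, K ≤ W n ω} = ⋃ n, {ω | ∃ m ≤ n, K ≤ W m ω} := by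
    ext ω
    simp only [Set.mem_iUnion, Set.mem_ofPred_eq]
    constructor
    · rintro ⟨n, h⟩
      exact ⟨n, n, le_rfl, h⟩
    · rintro ⟨n, m, _, h⟩
      exact ⟨m, h⟩
  have hmono : Monotone fun n => {ω : ℕ → Bool | ∃ m ≤ n, K ≤ W m ω} := by
    intro a b hab ω h
    obtain ⟨m, hm, h⟩ := h
    exact ⟨m, hm.trans hab, h⟩
  rw [h5, hmono.measure_iUnion, ENNReal.mul_iSup]
  exact iSup_le h4

/-- almost surely the process is bounded -/
theorem ae_bdd (hm : ∀ n, Measurable (W n))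
    (hfl : ∀ n m, m ≤ n → ∀ ω, W m (fl (n + 1) ω) = W m ω)
    (hsup : ∀ n ω, W (n + 1) ω + W (n + 1) (fl (n + 1) ω) ≤ 2 * W n ω)
    (h0 : ∫⁻ ω, W 0 ω ∂cm ≤ 1) : ∀ᵐ ω ∂cm, ∃ K : ℕ, ∀ n, W n ω < K := by
  rw [ae_iff]
  have h1 : ∀ k : ℕ, 1 ≤ k → cm {ω | ¬ ∃ K : ℕ, ∀ n, W n ω < K} ≤ (k : ℝ≥0∞)⁻¹ := by
    intro k hk
    have h2 := maxineq (K := (k : ℝ≥0∞)) hm hfl hsup
    have h3 : cm {ω | ¬ ∃ K : ℕ, ∀ n, W n ω < K} ≤ cm {ω | ∃ n, (k : ℝ≥0∞) ≤ W n ω} := by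
      refine measure_mono fun ω hω => ?_
      by_contra hc
      refine hω ⟨k, fun n => ?_⟩
      by_contra h
      exact hc ⟨n, not_lt.1 h⟩
    refine h3.trans ?_
    rw [← one_div]
    rw [ENNReal.le_div_iff_mul_le (Or.inl (by exact_mod_cast (by omega : k ≠ 0)))
      (Or.inl (ENNReal.natCast_ne_top k)), mul_comm]
    exact h2.trans h0
  refine le_antisymm ?_ bot_le
  refine ge_of_tendsto ENNReal.tendsto_inv_nat_nhds_zero ?_
  filter_upwards [Filter.eventually_ge_atTop 1] with k hk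
  exact h1 k hk

end Pool.Agent.Q163.WM
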