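import Pool.Agent.Q163.WM.TT
import Pool.Agent.Q163.WM.Sup

/-! Sums of a squarefree supported multiplicative function over smooth numbers. -/

set_option autoImplicit false

namespace Pool.Agent.Q163.WM

open Finset MeasureTheory Pool.Agent.Q163.RP Pool.Agent.Q163.RX
open scoped ENNReal

/-- the Moebius function -/
noncomputable def mo (n : ℕ) : ℝ := ((ArithmeticFunction.moebius n : ℤ) : ℝ)

lemma mo_mul_prime {p m : ℕ} (hp : p.Prime) (h : ¬ p ∣ m) : mo (p * m) = - mo m := by
  unfold mo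
  rw [ArithmeticFunction.isMultiplicative_moebius.map_mul_of_coprime
    ((Nat.Prime.coprime_iff_not_dvd hp).2 h), ArithmeticFunction.moebius_apply_prime hp]
  push_cast
  ring

lemma mo_mul_prime_zero {p m : ℕ} (hp : p.Prime) (h : p ∣ m) : mo (p * m) = 0 := by
  unfold mo
  rw [ArithmeticFunction.moebius_eq_zero_of_not_squarefree, Int.cast_zero]
  intro hs
  have := hs p (Nat.mul_dvd_mul_left p h)
  exact hp.one_lt.ne' (Nat.isUnit_iff.1 this)

/-- `μ(n) c(n)` at the `y`-smooth integers -/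
noncomputable def sm (c : ℕ → ℝ) (y n : ℕ) : ℝ :=
  if ∀ q ∈ n.primeFactors, q ≤ y then mo n * mult c n else 0

/-- the sum up to `N` -/
noncomputable def My (c : ℕ → ℝ) (y N : ℕ) : ℝ := ∑ n ∈ Icc 1 N, sm c y n

lemma My_z (c : ℕ → ℝ) (y : ℕ) : My c y 0 = 0 := by
  simp [My]

lemma mult_prime_mul (c : ℕ → ℝ) {p m : ℕ} (hp : p.Prime) (hm : m ≠ 0) :
    mult c (p * m) = c p * mult c m := by
  rw [mult_mul c hp.ne_zero hm]
  congr 1
  unfold mult
  rw [hp.primeFactors, prod_singleton, hp.factorization_self, pow_one]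

lemma sm_dvd (c : ℕ → ℝ) {y m : ℕ} (hp : (y + 1).Prime) (hm : 1 ≤ m) :
    sm c (y + 1) ((y + 1) * m) = -(c (y + 1) * sm c y m) := by
  have hm0 : m ≠ 0 := by omega
  have hpf : ((y + 1) * m).primeFactors = insert (y + 1) m.primeFactors := by
    rw [Nat.primeFactors_mul hp.ne_zero hm0, hp.primeFactors]
    rfl
  by_cases hd : (y + 1) ∣ m
  · have h1 : sm c y m = 0 := by
      unfold sm
      rw [if_neg]
      intro h
      have := h (y + 1) (Nat.mem_primeFactors.2 ⟨hp, hd, hm0⟩)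
      omega
    rw [h1, mul_zero, neg_zero]
    unfold sm
    split_ifs
    · rw [mo_mul_prime_zero hp hd, zero_mul]
    · rfl
  · by_cases h : ∀ q ∈ m.primeFactors, q ≤ y
    · have h1 : ∀ q ∈ ((y + 1) * m).primeFactors, q ≤ y + 1 := by
        intro q hq
        rw [hpf, mem_insert] at hq
        rcases hq with rfl | hq
        · exact le_rfl
        · exact (h q hq).trans (Nat.le_succ y)
      unfold sm
      rw [if_pos h, if_pos h1, mo_mul_prime hp hd, mult_prime_mul c hp hm0]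
      ring
    · have h1 : ¬ ∀ q ∈ ((y + 1) * m).primeFactors, q ≤ y + 1 := by
        intro h'
        refine h fun q hq => ?_
        have h2 := h' q (by rw [hpf]; exact mem_insert_of_mem hq)
        have h3 : q ≠ y + 1 := by
          rintro rfl
          exact hd (Nat.dvd_of_mem_primeFactors hq)
        omega
      unfold sm
      rw [if_neg h, if_neg h1, mul_zero, neg_zero]

lemma sm_not_dvd (c : ℕ → ℝ) {y n : ℕ} (h : ¬ (y + 1) ∣ n ∨ ¬ (y + 1).Prime) :
    sm c (y + 1) n = sm c y n := by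
  unfold sm
  have h1 : (∀ q ∈ n.primeFactors, q ≤ y + 1) ↔ ∀ q ∈ n.primeFactors, q ≤ y := by
    constructor
    · intro h' q hq
      have h2 := h' q hq
      have h3 : q ≠ y + 1 := by
        rintro rfl
        rcases h with h | h
        · exact h (Nat.dvd_of_mem_primeFactors hq)
        · exact h (Nat.prime_of_mem_primeFactors hq)
      omega
    · intro h' q hq
      exact (h' q hq).trans (Nat.le_succ y)
  by_cases h2 : ∀ q ∈ n.primeFactors, q ≤ y
  · rw [if_pos h2, if_pos (h1.2 h2)]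
  · rw [if_neg h2, if_neg fun h' => h2 (h1.1 h')]

lemma sm_dvd' (c : ℕ → ℝ) {y n : ℕ} (hp : (y + 1).Prime) (hd : (y + 1) ∣ n) (hn : n ≠ 0) :
    sm c y n = 0 := by
  unfold sm
  rw [if_neg]
  intro h
  have := h (y + 1) (Nat.mem_primeFactors.2 ⟨hp, hd, hn⟩)
  omega

/-- the recursion -/
theorem My_succ (c : ℕ → ℝ) {y : ℕ} (hp : (y + 1).Prime) (N : ℕ) :
    My c (y + 1) N = My c y N - c (y + 1) * My c y (N / (y + 1)) := by
  unfold My
  rw [← sum_filter_add_sum_filter_not (Icc 1 N) (fun n => (y + 1) ∣ n) (fun n => sm c (y + 1) n),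
    ← sum_filter_add_sum_filter_not (Icc 1 N) (fun n => (y + 1) ∣ n) (fun n => sm c y n)]
  have h1 : ∑ n ∈ (Icc 1 N).filter (fun n => (y + 1) ∣ n), sm c y n = 0 :=
    sum_eq_zero fun n hn => sm_dvd' c hp (mem_filter.1 hn).2
      (by have := (mem_Icc.1 (mem_filter.1 hn).1).1; omega)
  have h2 : ∑ n ∈ (Icc 1 N).filter (fun n => ¬ (y + 1) ∣ n), sm c (y + 1) n =
      ∑ n ∈ (Icc 1 N).filter (fun n => ¬ (y + 1) ∣ n), sm c y n :=
    sum_congr rfl fun n hn => sm_not_dvd c (Or.inl (mem_filter.1 hn).2)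
  have h3 : ∑ n ∈ (Icc 1 N).filter (fun n => (y + 1) ∣ n), sm c (y + 1) n =
      -(c (y + 1) * ∑ n ∈ Icc 1 (N / (y + 1)), sm c y n) := by
    rw [mul_sum, ← sum_neg_distrib]
    symm
    refine sum_nbij' (fun m => (y + 1) * m) (fun n => n / (y + 1)) ?_ ?_ ?_ ?_ ?_
    · intro m hm
      rw [mem_Icc] at hm
      rw [mem_filter, mem_Icc]
      refine ⟨⟨?_, ?_⟩, dvd_mul_right _ _⟩
      · nlinarith [hm.1]
      · rw [mul_comm]
        exact (Nat.le_div_iff_mul_le (by omega)).1 hm.2
    · intro n hn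
      rw [mem_filter, mem_Icc] at hn
      rw [mem_Icc]
      refine ⟨?_, Nat.div_le_div_right hn.1.2⟩
      exact (Nat.le_div_iff_mul_le (by omega)).2 (by rw [one_mul]; exact Nat.le_of_dvd (by omega) hn.2)
    · intro m _
      exact Nat.mul_div_cancel_left m (by omega)
    · intro n hn
      exact Nat.mul_div_cancel' (mem_filter.1 hn).2
    · intro m hm
      exact (sm_dvd c hp (mem_Icc.1 hm).1).symm
  rw [h1, h2, h3]
  ring

theorem My_succ' (c : ℕ → ℝ) {y : ℕ} (hp : ¬ (y + 1).Prime) (N : ℕ) :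
    My c (y + 1) N = My c y N :=
  sum_congr rfl fun _ _ => sm_not_dvd c (Or.inr hp)

theorem My_zero (c : ℕ → ℝ) (N : ℕ) : My c 0 N = if 1 ≤ N then 1 else 0 := by
  unfold My
  have h1 : ∀ n ∈ Icc 1 N, sm c 0 n = if n = 1 then 1 else 0 := by
    intro n hn
    rw [mem_Icc] at hn
    unfold sm
    by_cases h : n = 1
    · subst h
      rw [if_pos (by simp), if_pos rfl]
      simp [mo, mult_one]
    · rw [if_neg h, if_neg]
      intro h'
      obtain ⟨p, hp, hpn⟩ := Nat.exists_prime_and_dvd h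
      have := h' p (Nat.mem_primeFactors.2 ⟨hp, hpn, by omega⟩)
      exact absurd hp.pos (by omega)
  rw [sum_congr rfl h1, sum_ite_eq']
  simp only [mem_Icc, le_refl, true_and]

lemma My_congr {c d : ℕ → ℝ} {y : ℕ} (h : ∀ p, p.Prime → p ≤ y → c p = d p) (N : ℕ) :
    My c y N = My d y N := by
  refine sum_congr rfl fun n _ => ?_
  unfold sm
  by_cases h1 : ∀ q ∈ n.primeFactors, q ≤ y
  · rw [if_pos h1, if_pos h1]
    congr 1
    exact prod_congr rfl fun p hp => by rw [h p (Nat.prime_of_mem_primeFactors hp) (h1 p hp)]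
  · rw [if_neg h1, if_neg h1]

lemma My_large (c : ℕ → ℝ) {y N : ℕ} (h : N ≤ y) : My c y N = ∑ n ∈ Icc 1 N, mo n * mult c n := by
  refine sum_congr rfl fun n hn => ?_
  unfold sm
  rw [if_pos]
  intro q hq
  exact (Nat.le_of_dvd (by rw [mem_Icc] at hn; omega) (Nat.dvd_of_mem_primeFactors hq)).trans
    ((mem_Icc.1 hn).2.trans h)

open Classical in
/-- the sign `s p` outside of `P`, the coin in `P` -/
noncomputable def vl (P : Set ℕ) (s : ℕ → ℝ) (ω : ℕ → Bool) (p : ℕ) : ℝ := if p ∈ P then es p ω else s p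

open Classical in
/-- the factor of the prime `p` in the mean square -/
noncomputable def fac (P : Set ℕ) (p : ℕ) : ℝ := if p ∈ P then 1 + 1 / (p : ℝ) else (1 + 1 / Real.sqrt p) ^ 2

/-- the product of the factors -/
noncomputable def EE (P : Set ℕ) (y : ℕ) : ℝ := ∏ p ∈ (Icc 1 y).filter Nat.Prime, fac P p

lemma fac_pos (P : Set ℕ) (p : ℕ) : 0 < fac P p := by
  unfold fac
  split_ifs <;> positivity

lemma EE_pos (P : Set ℕ) (y : ℕ) : 0 < EE P y := prod_pos fun p _ => fac_pos P p

lemma Icc_ins (y : ℕ) : Icc 1 (y + 1) = insert (y + 1) (Icc 1 y) := by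
  ext n
  simp only [mem_Icc, mem_insert]
  omega

lemma EE_succ (P : Set ℕ) {y : ℕ} (hp : (y + 1).Prime) : EE P (y + 1) = EE P y * fac P (y + 1) := by
  unfold EE
  rw [Icc_ins, filter_insert, if_pos hp, prod_insert, mul_comm]
  simp

lemma EE_succ' (P : Set ℕ) {y : ℕ} (hp : ¬ (y + 1).Prime) : EE P (y + 1) = EE P y := by
  unfold EE
  rw [Icc_ins, filter_insert, if_neg hp]

/-- the normalised mean square of the smooth sums -/
noncomputable def WW (P : Set ℕ) (s : ℕ → ℝ) (y : ℕ) (ω : ℕ → Bool) : ℝ≥0∞ :=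
  ENNReal.ofReal (1 / EE P y) * T (My (vl P s ω) y)

lemma meas_vl (P : Set ℕ) (s : ℕ → ℝ) (p : ℕ) : Measurable fun ω => vl P s ω p := by
  unfold vl
  split_ifs
  · exact signs.meas p
  · exact measurable_const

lemma meas_My (P : Set ℕ) (s : ℕ → ℝ) (y N : ℕ) : Measurable fun ω => My (vl P s ω) y N := by
  unfold My
  refine Finset.measurable_fun_sum _ fun n _ => ?_
  unfold sm
  split_ifs
  · refine Measurable.const_mul ?_ _
    unfold mult
    exact Finset.measurable_fun_prod _ fun p _ => (meas_vl P s p).pow_const _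
  · exact measurable_const

lemma meas_WW (P : Set ℕ) (s : ℕ → ℝ) (y : ℕ) : Measurable (WW P s y) := by
  unfold WW T
  refine Measurable.const_mul ?_ _
  refine Measurable.tsum fun N => ?_
  exact (((meas_My P s y N).pow_const 2).div_const _).ennreal_ofReal

lemma vl_fl (P : Set ℕ) (s : ℕ → ℝ) {p q : ℕ} (hq : q ≠ p) (ω : ℕ → Bool) :
    vl P s (fl p ω) q = vl P s ω q := by
  unfold vl es fl
  rw [if_neg hq]

lemma vl_fl' (P : Set ℕ) (s : ℕ → ℝ) {p : ℕ} (hp : p ∈ P) (ω : ℕ → Bool) :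
    vl P s (fl p ω) p = - vl P s ω p := by
  unfold vl es fl
  rw [if_pos hp, if_pos hp, if_pos rfl]
  unfold sgn
  cases ω p <;> simp

lemma WW_fl (P : Set ℕ) (s : ℕ → ℝ) (n m : ℕ) (hm : m ≤ n) (ω : ℕ → Bool) :
    WW P s m (fl (n + 1) ω) = WW P s m ω := by
  unfold WW
  congr 2
  funext N
  exact My_congr (fun p _ hp => vl_fl P s (by omega) ω) N

lemma T_scale' (c : ℕ → ℝ) (y p : ℕ) (hp : 1 ≤ p) (e : ℝ) :
    T (fun N => e * My c y (N / p)) = ENNReal.ofReal (e ^ 2 / p) * T (My c y) := by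
  rw [T_scale (fun N => e * My c y N) (by simp [My_z]) p hp]
  unfold T
  rw [← ENNReal.tsum_mul_left, ← ENNReal.tsum_mul_left]
  refine tsum_congr fun N => ?_
  rw [← ENNReal.ofReal_mul (by positivity), ← ENNReal.ofReal_mul (by positivity)]
  congr 1
  ring

theorem WW_super (P : Set ℕ) (s : ℕ → ℝ) (hs : ∀ p, |s p| ≤ 1) (n : ℕ) (ω : ℕ → Bool) :
    WW P s (n + 1) ω + WW P s (n + 1) (fl (n + 1) ω) ≤ 2 * WW P s n ω := by
  unfold WW
  by_cases hp : (n + 1).Prime
  · have hq : ∀ N, My (vl P s (fl (n + 1) ω)) n N = My (vl P s ω) n N :=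
      fun N => My_congr (fun p _ hp => vl_fl P s (by omega) ω) N
    have hpos : (0 : ℝ) < ((n + 1 : ℕ) : ℝ) := by positivity
    by_cases hP : (n + 1) ∈ P
    · have e1 : My (vl P s ω) (n + 1) = fun N => My (vl P s ω) n N -
          vl P s ω (n + 1) * My (vl P s ω) n (N / (n + 1)) := by
        funext N
        exact My_succ _ hp N
      have e2 : My (vl P s (fl (n + 1) ω)) (n + 1) = fun N => My (vl P s ω) n N +
          vl P s ω (n + 1) * My (vl P s ω) n (N / (n + 1)) := by
        funext N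
        rw [My_succ _ hp N, hq, hq, vl_fl' P s hP]
        ring
      have hv : vl P s ω (n + 1) ^ 2 = 1 := by
        unfold vl
        rw [if_pos hP]
        rcases signs.sign (n + 1) ω with h | h <;> rw [h] <;> norm_num
      rw [e1, e2, ← mul_add, T_par, T_scale' _ _ _ (by omega), hv, EE_succ P hp]
      have e3 : fac P (n + 1) = 1 + 1 / ((n + 1 : ℕ) : ℝ) := by
        unfold fac
        rw [if_pos hP]
      rw [e3]
      have e4 : (2 : ℝ≥0∞) * T (My (vl P s ω) n) + 2 * (ENNReal.ofReal (1 / ((n + 1 : ℕ) : ℝ)) *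
          T (My (vl P s ω) n)) = ENNReal.ofReal (2 * (1 + 1 / ((n + 1 : ℕ) : ℝ))) *
          T (My (vl P s ω) n) := by
        rw [ENNReal.ofReal_mul (by norm_num), ENNReal.ofReal_add (by norm_num) (by positivity)]
        simp only [ENNReal.ofReal_one, ENNReal.ofReal_ofNat]
        ring
      rw [e4, ← mul_assoc, ← ENNReal.ofReal_mul (by have := EE_pos P n; positivity)]
      have e5 : 1 / (EE P n * (1 + 1 / ((n + 1 : ℕ) : ℝ))) * (2 * (1 + 1 / ((n + 1 : ℕ) : ℝ))) =
          2 * (1 / EE P n) := by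
        have := EE_pos P n
        have h2 : (1 : ℝ) + 1 / ((n + 1 : ℕ) : ℝ) ≠ 0 := by positivity
        field_simp
      rw [e5, ENNReal.ofReal_mul (by norm_num), ENNReal.ofReal_ofNat, mul_assoc]
    · have key : ∀ c : ℕ → ℝ, (∀ N, My c n N = My (vl P s ω) n N) → |c (n + 1)| ≤ 1 →
          ENNReal.ofReal (1 / EE P (n + 1)) * T (My c (n + 1)) ≤
          ENNReal.ofReal (1 / EE P n) * T (My (vl P s ω) n) := by
        intro c hc hc1
        have e1 : My c (n + 1) = fun N => My (vl P s ω) n N -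
            c (n + 1) * My (vl P s ω) n (N / (n + 1)) := by
          funext N
          rw [My_succ _ hp N, hc, hc]
        set r : ℝ := 1 / Real.sqrt ((n + 1 : ℕ) : ℝ) with hr
        have hr0 : 0 < r := by positivity
        have hr2 : r ^ 2 = 1 / ((n + 1 : ℕ) : ℝ) := by
          rw [hr, div_pow, one_pow, Real.sq_sqrt hpos.le]
        have h1 : T (My c (n + 1)) ≤ ENNReal.ofReal ((1 + r) ^ 2) * T (My (vl P s ω) n) := by
          rw [e1]
          refine (T_mink _ _ r hr0).trans ?_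
          rw [T_scale' _ _ _ (by omega), ← mul_assoc, ← add_mul,
            ← ENNReal.ofReal_mul (by positivity), ← ENNReal.ofReal_add (by positivity) (by positivity)]
          refine mul_le_mul_left (ENNReal.ofReal_le_ofReal ?_) _
          have h2 : c (n + 1) ^ 2 / ((n + 1 : ℕ) : ℝ) ≤ r ^ 2 := by
            rw [hr2]
            refine div_le_div_of_nonneg_right ?_ hpos.le
            have := abs_le.1 hc1
            nlinarith
          have h3 : (1 + 1 / r) * (c (n + 1) ^ 2 / ((n + 1 : ℕ) : ℝ)) ≤ (1 + 1 / r) * r ^ 2 :=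
            mul_le_mul_of_nonneg_left h2 (by positivity)
          have h4 : (1 + 1 / r) * r ^ 2 = r ^ 2 + r := by field_simp
          nlinarith
        refine (mul_le_mul_right h1 _).trans (le_of_eq ?_)
        rw [← mul_assoc, ← ENNReal.ofReal_mul (by have := EE_pos P (n + 1); positivity), EE_succ P hp]
        have e3 : fac P (n + 1) = (1 + r) ^ 2 := by
          unfold fac
          rw [if_neg hP]
        rw [e3]
        congr 2
        have := EE_pos P n
        have h2 : (1 : ℝ) + r ≠ 0 := by positivity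
        field_simp
      have hv : ∀ ω', vl P s ω' (n + 1) = s (n + 1) := by
        intro ω'
        unfold vl
        rw [if_neg hP]
      rw [two_mul]
      exact add_le_add (key _ (fun _ => rfl) (by rw [hv]; exact hs _)) (key _ hq (by rw [hv]; exact hs _))
  · have hq : My (vl P s (fl (n + 1) ω)) n = My (vl P s ω) n := by
      funext N
      exact My_congr (fun p _ hp => vl_fl P s (by omega) ω) N
    have e1 : ∀ c, My c (n + 1) = My c n := fun c => funext fun N => My_succ' c hp N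
    rw [e1, e1, hq, EE_succ' P hp, two_mul]

lemma WW_zero (P : Set ℕ) (s : ℕ → ℝ) (ω : ℕ → Bool) : WW P s 0 ω = 1 := by
  unfold WW
  have e1 : My (vl P s ω) 0 = fun N => if 1 ≤ N then 1 else 0 := funext fun N => My_zero _ N
  rw [e1, T_one]
  simp [EE]

/-- almost surely the process is bounded -/
theorem WW_bdd (P : Set ℕ) (s : ℕ → ℝ) (hs : ∀ p, |s p| ≤ 1) :
    ∀ᵐ ω ∂cm, ∃ K : ℕ, ∀ n, WW P s n ω < K :=
  ae_bdd (meas_WW P s) (WW_fl P s) (WW_super P s hs) (by simp [WW_zero])

theorem WW_max (P : Set ℕ) (s : ℕ → ℝ) (hs : ∀ p, |s p| ≤ 1) (K : ℝ≥0∞) :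
    K * cm {ω | ∃ n, K ≤ WW P s n ω} ≤ 1 :=
  (maxineq (meas_WW P s) (WW_fl P s) (WW_super P s hs)).trans (by simp [WW_zero])

end Pool.Agent.Q163.WM
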