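import Pool.Agent.Q163.RX.Mgf

/-! The quadratic form `∑ F(N)² / (N (N + 1))`. -/

set_option autoImplicit false

namespace Pool.Agent.Q163.WM

open Finset
open scoped ENNReal

/-- `∫_1^∞ (F(⌊u⌋) / u)² du` -/
noncomputable def T (F : ℕ → ℝ) : ℝ≥0∞ := ∑' N : ℕ, ENNReal.ofReal (F N ^ 2 / (N * (N + 1)))

lemma tele (p m : ℕ) (hp : 1 ≤ p) (hm : 1 ≤ m) (k : ℕ) :
    ∑ j ∈ range k, 1 / (((m * p + j : ℕ) : ℝ) * (((m * p + j : ℕ) : ℝ) + 1)) =
      1 / ((m : ℝ) * p) - 1 / ((m : ℝ) * p + k) := by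
  have hm' : (0 : ℝ) < m := by exact_mod_cast hm
  have hp' : (0 : ℝ) < p := by exact_mod_cast hp
  induction k with
  | zero => simp
  | succ k ih =>
    rw [sum_range_succ, ih]
    push_cast
    have h1 : (m : ℝ) * p + k ≠ 0 := by positivity
    have h2 : (m : ℝ) * p + k + 1 ≠ 0 := by positivity
    have h3 : (m : ℝ) * p + (k + 1) ≠ 0 := by positivity
    field_simp
    ring

theorem T_scale (F : ℕ → ℝ) (h0 : F 0 = 0) (p : ℕ) (hp : 1 ≤ p) :
    T (fun N => F (N / p)) = ENNReal.ofReal (1 / p) * T F := by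
  have hp0 : NeZero p := ⟨by omega⟩
  unfold T
  rw [← (Nat.divModEquiv p).symm.tsum_eq,
    ENNReal.tsum_prod (f := fun m b => ENNReal.ofReal (F ((Nat.divModEquiv p).symm (m, b) / p) ^ 2 /
      (((Nat.divModEquiv p).symm (m, b) : ℕ) * ((((Nat.divModEquiv p).symm (m, b) : ℕ) : ℝ) + 1)))),
    ← ENNReal.tsum_mul_left]
  refine tsum_congr fun m => ?_
  rw [tsum_fintype]
  have h1 : ∀ b : Fin p, ENNReal.ofReal (F ((Nat.divModEquiv p).symm (m, b) / p) ^ 2 /
      (((Nat.divModEquiv p).symm (m, b) : ℕ) * ((((Nat.divModEquiv p).symm (m, b) : ℕ) : ℝ) + 1))) =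
      ENNReal.ofReal (F m ^ 2 * (1 / (((m * p + (b : ℕ) : ℕ) : ℝ) * (((m * p + (b : ℕ) : ℕ) : ℝ) + 1)))) := by
    intro b
    have e1 : (Nat.divModEquiv p).symm (m, b) = m * p + b := by
      rfl
    have e2 : (m * p + (b : ℕ)) / p = m := by
      rw [Nat.add_comm, Nat.add_mul_div_right _ _ (by omega), Nat.div_eq_of_lt b.2, zero_add]
    rw [e1, e2]
    congr 1
    rw [mul_one_div]
  rw [Finset.sum_congr rfl fun b _ => h1 b]
  rcases Nat.eq_zero_or_pos m with rfl | hm
  · simp [h0]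
  · rw [← ENNReal.ofReal_sum_of_nonneg (fun b _ => by positivity), ← mul_sum,
      ← ENNReal.ofReal_mul (by positivity)]
    congr 1
    rw [Fin.sum_univ_eq_sum_range
      (fun j : ℕ => 1 / (((m * p + j : ℕ) : ℝ) * (((m * p + j : ℕ) : ℝ) + 1))) p, tele p m hp hm]
    have hm' : (0 : ℝ) < m := by exact_mod_cast hm
    have hp' : (0 : ℝ) < p := by exact_mod_cast (by omega : 0 < p)
    have h2 : (m : ℝ) * p + p ≠ 0 := by positivity
    have h3 : (m : ℝ) + 1 ≠ 0 := by positivity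
    field_simp
    ring

theorem T_mink (F G : ℕ → ℝ) (c : ℝ) (hc : 0 < c) :
    T (fun N => F N - G N) ≤ ENNReal.ofReal (1 + c) * T F + ENNReal.ofReal (1 + 1 / c) * T G := by
  unfold T
  rw [← ENNReal.tsum_mul_left, ← ENNReal.tsum_mul_left, ← ENNReal.tsum_add]
  refine ENNReal.tsum_le_tsum fun N => ?_
  have h1 : (F N - G N) ^ 2 ≤ (1 + c) * F N ^ 2 + (1 + 1 / c) * G N ^ 2 := by
    have : 0 ≤ c * (F N + G N / c) ^ 2 := by positivity
    have e : c * (F N + G N / c) ^ 2 = c * F N ^ 2 + 2 * (F N * G N) + G N ^ 2 / c := by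
      field_simp
      ring
    rw [e] at this
    have e2 : (1 + 1 / c) * G N ^ 2 = G N ^ 2 + G N ^ 2 / c := by ring
    rw [e2]
    nlinarith
  rw [← ENNReal.ofReal_mul (by positivity), ← ENNReal.ofReal_mul (by positivity),
    ← ENNReal.ofReal_add (by positivity) (by positivity)]
  apply ENNReal.ofReal_le_ofReal
  rw [← mul_div_assoc, ← mul_div_assoc, ← add_div]
  exact div_le_div_of_nonneg_right h1 (by positivity)

theorem T_par (F G : ℕ → ℝ) :
    T (fun N => F N - G N) + T (fun N => F N + G N) = 2 * T F + 2 * T G := by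
  unfold T
  rw [← ENNReal.tsum_mul_left, ← ENNReal.tsum_mul_left, ← ENNReal.tsum_add, ← ENNReal.tsum_add]
  refine tsum_congr fun N => ?_
  have h2 : (2 : ℝ≥0∞) = ENNReal.ofReal 2 := by simp
  rw [h2, ← ENNReal.ofReal_mul (by positivity), ← ENNReal.ofReal_mul (by positivity),
    ← ENNReal.ofReal_add (by positivity) (by positivity),
    ← ENNReal.ofReal_add (by positivity) (by positivity)]
  congr 1
  ring

lemma T_neg (F : ℕ → ℝ) : T (fun N => -F N) = T F := by
  unfold T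
  simp

lemma T_sum_le (F : ℕ → ℝ) (X : ℕ) :
    ∑ N ∈ Icc 1 X, F N ^ 2 / ((N : ℝ) * (N + 1)) ≤ (T F).toReal ∨ T F = ⊤ := by
  by_cases h : T F = ⊤
  · exact Or.inr h
  · left
    have h1 : ∑ N ∈ Icc 1 X, ENNReal.ofReal (F N ^ 2 / ((N : ℝ) * (N + 1))) ≤ T F :=
      ENNReal.sum_le_tsum _
    rw [← ENNReal.ofReal_sum_of_nonneg (fun N _ => by positivity)] at h1
    exact (ENNReal.ofReal_le_iff_le_toReal h).1 h1

/-- the value for the constant function `1` -/
lemma T_one : T (fun N => if 1 ≤ N then 1 else 0) = 1 := by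
  unfold T
  have h1 : HasSum (fun N : ℕ => (if 1 ≤ N then (1 : ℝ) else 0) ^ 2 / (N * (N + 1))) 1 := by
    rw [hasSum_iff_tendsto_nat_of_nonneg (fun N => by positivity)]
    have h2 : ∀ n : ℕ, 1 ≤ n → ∑ N ∈ range n, (if 1 ≤ N then (1 : ℝ) else 0) ^ 2 / ((N : ℝ) * (N + 1)) =
        (1 : ℝ) - 1 / n := by
      intro n hn
      induction n, hn using Nat.le_induction with
      | base => simp
      | succ n hn ih =>
        rw [sum_range_succ, ih, if_pos hn]
        have : (0 : ℝ) < n := by exact_mod_cast hn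
        push_cast
        field_simp
        ring
    have h3 : Filter.Tendsto (fun n : ℕ => (1 : ℝ) - 1 / n) Filter.atTop (nhds (1 - 0)) :=
      tendsto_const_nhds.sub tendsto_one_div_atTop_nhds_zero_nat
    rw [sub_zero] at h3
    refine h3.congr' ?_
    filter_upwards [Filter.eventually_ge_atTop 1] with n hn
    exact (h2 n hn).symm
  rw [← ENNReal.ofReal_tsum_of_nonneg (fun N => by positivity) h1.summable, h1.tsum_eq,
    ENNReal.ofReal_one]

end Pool.Agent.Q163.WM
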